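import Pool.Agent.Q130.UP.Pack

/-!
# MP_e888d6_gt: a non-coisotropic submanifold of `ℝ⁶` all of whose packings are countable

`K ⊂ ℝ⁶ = ℂ³` is the connected closed four-dimensional submanifold
`(|z₁|² - 2)² + β(|z₃|²) = 1`, `|z₂|² = 4 + (|z₁|² - 1) Re z₃`, where `β` is smooth, zero on `(-∞, 1]`
and strictly increasing on `[1, ∞)` with `β(2) = 1`; it is diffeomorphic to `T² × S²`. It is not
coisotropic, but near `|z₁| = 1`, `|z₂| = 2`, `|z₃| ≤ 1` it is the product of the torus
`|z₁| = 1`, `|z₂| = 2` with a disc, which is coisotropic with closed isotropic leaves.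

Given an uncountable family of Hamiltonian diffeomorphisms, two of them are so close in the `C¹`
topology that `ψ = φ_i⁻¹ φ_j` is `C¹`-close to the identity on `K`. On the three-manifold
`|z₁| = 1`, `|z₂| = 2`, `Im z₃ = 0` the exact form `ψ^* λ - λ`, corrected by angle functions, has the
primitive `G` with `dG = ∑ κ_j Im(conj Z_j dZ_j) + (Re Z₃) d(Im Z₃)`. A maximum point of `G` on
`Re Z₃ = 0` is, by Lagrange multipliers, a point of `K` mapped to `K` by `ψ`.
-/

set_option autoImplicit false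

open Set Filter Topology
open scoped ContDiff ComplexConjugate

noncomputable section

namespace Pool.Agent.Results.MP_e888d6_gt.Disproof

open Pool.Agent.Q130.UP

/-- `K` is a closed (compact, without boundary) embedded submanifold of `ℝ⁶` of dimension four, given
by the regular equations `f = g = 0` -/
structure IsClosedSubmanifold (f g : V → ℝ) (K : Set V) : Prop where
  compact : IsCompact K
  smooth : ContDiff ℝ ∞ f ∧ ContDiff ℝ ∞ g
  eq : K = {x | f x = 0 ∧ g x = 0}
  regular : ∀ x ∈ K, ∀ a b : ℝ, ∃ v, dH f x v = a ∧ dH g x v = b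

/-- the normal bundle of `K = {f = g = 0}` has a nowhere vanishing section: there is a smooth vector
field `ν` which is nowhere tangent to `K` on `K` -/
def HasNormalSection (f g : V → ℝ) (K : Set V) : Prop :=
  ∃ ν : V → V, ContDiff ℝ ∞ ν ∧ ∀ x ∈ K, ν x ∉ tangent f g x

/-- `K = {f = g = 0}` is coisotropic: at every point the symplectic complement of the tangent space
is contained in the tangent space -/
def IsCoisotropic (f g : V → ℝ) (K : Set V) : Prop :=
  ∀ x ∈ K, ∀ v, (∀ w ∈ tangent f g x, omega v w = 0) → v ∈ tangent f g x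

/-- `P` is a packing of `K`: its members are images of `K` under compactly supported Hamiltonian
diffeomorphisms and they are pairwise disjoint -/
def IsPacking (K : Set V) (P : Set (Set V)) : Prop :=
  (∀ A ∈ P, ∃ φ : V ≃ V, IsHam φ ∧ A = φ '' K) ∧ P.PairwiseDisjoint id

/-! ### The submanifold -/

/-- the cut off function -/
def beta (r : ℝ) : ℝ := Real.exp 1 * expNegInvGlue (r - 1)

theorem beta_smooth : ContDiff ℝ ∞ beta :=
  contDiff_const.mul (expNegInvGlue.contDiff.comp (contDiff_id.sub contDiff_const))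

theorem beta_zero {r : ℝ} (h : r ≤ 1) : beta r = 0 := by
  rw [beta, expNegInvGlue.zero_of_nonpos (by linarith), mul_zero]

theorem beta_nonneg (r : ℝ) : 0 ≤ beta r :=
  mul_nonneg (Real.exp_pos 1).le (expNegInvGlue.nonneg _)

theorem beta_eq {r : ℝ} (h : 1 < r) : beta r = Real.exp (1 - (r - 1)⁻¹) := by
  rw [beta, expNegInvGlue, if_neg (by linarith), ← Real.exp_add]
  ring_nf

theorem beta_two : beta 2 = 1 := by
  rw [beta_eq (by norm_num)]; norm_num

theorem beta_le {r : ℝ} (h : beta r ≤ 1) : r ≤ 2 := by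
  by_contra h2
  push Not at h2
  rw [beta_eq (by linarith)] at h
  have h3 : (r - 1)⁻¹ < 1 := by
    rw [inv_lt_one₀ (by linarith)]; linarith
  have h4 : 1 < Real.exp (1 - (r - 1)⁻¹) := Real.one_lt_exp_iff.2 (by linarith)
  linarith

theorem beta_deriv_pos {r : ℝ} (h : 1 < r) : 0 < deriv beta r := by
  have h1 : beta =ᶠ[𝓝 r] fun r => Real.exp (1 - (r - 1)⁻¹) := by
    filter_upwards [lt_mem_nhds h] with s hs
    exact beta_eq hs
  rw [h1.deriv_eq]
  have h2 : HasDerivAt (fun r : ℝ => Real.exp (1 - (r - 1)⁻¹))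
      (Real.exp (1 - (r - 1)⁻¹) * (0 - (-1 / (r - 1) ^ 2))) r := by
    have h3 : HasDerivAt (fun r : ℝ => r - 1) 1 r := (hasDerivAt_id r).sub_const 1
    have h4 := h3.inv (by linarith : r - 1 ≠ 0)
    exact ((hasDerivAt_const r (1 : ℝ)).sub h4).exp
  rw [h2.deriv]
  have : 0 < (r - 1) ^ 2 := by nlinarith
  have h5 : 0 < 1 / (r - 1) ^ 2 := by positivity
  have h6 : 0 - (-1 / (r - 1) ^ 2) = 1 / (r - 1) ^ 2 := by ring
  rw [h6]
  positivity

/-- squared absolute values of the coordinates -/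
def N1 (x : V) : ℝ := Complex.normSq x.1
def N2 (x : V) : ℝ := Complex.normSq x.2.1
def N3 (x : V) : ℝ := Complex.normSq x.2.2

theorem N1_smooth : ContDiff ℝ ∞ N1 := by
  have : N1 = fun x : V => X1 x * X1 x + Y1 x * Y1 x := by
    ext x; simp [N1, X1, Y1, Complex.normSq_apply]
  rw [this]
  exact (X1.contDiff.mul X1.contDiff).add (Y1.contDiff.mul Y1.contDiff)

theorem N2_smooth : ContDiff ℝ ∞ N2 := by
  have : N2 = fun x : V => X2 x * X2 x + Y2 x * Y2 x := by
    ext x; simp [N2, X2, Y2, Complex.normSq_apply]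
  rw [this]
  exact (X2.contDiff.mul X2.contDiff).add (Y2.contDiff.mul Y2.contDiff)

theorem N3_smooth : ContDiff ℝ ∞ N3 := by
  have : N3 = fun x : V => X3 x * X3 x + Y3 x * Y3 x := by
    ext x; simp [N3, X3, Y3, Complex.normSq_apply]
  rw [this]
  exact (X3.contDiff.mul X3.contDiff).add (Y3.contDiff.mul Y3.contDiff)

/-- the two equations -/
def f1 (x : V) : ℝ := (N1 x - 2) ^ 2 + beta (N3 x) - 1
def f2 (x : V) : ℝ := N2 x - 4 - (N1 x - 1) * X3 x

theorem f1_smooth : ContDiff ℝ ∞ f1 :=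
  (((N1_smooth.sub contDiff_const).pow 2).add (beta_smooth.comp N3_smooth)).sub contDiff_const

theorem f2_smooth : ContDiff ℝ ∞ f2 :=
  (N2_smooth.sub contDiff_const).sub ((N1_smooth.sub contDiff_const).mul X3.contDiff)

/-- the submanifold -/
def K : Set V := {x | f1 x = 0 ∧ f2 x = 0}

theorem normSq_line (z w : ℂ) :
    HasDerivAt (fun t : ℝ => Complex.normSq (z + (t : ℂ) * w)) (2 * (conj z * w).re) 0 := by
  have e : (fun t : ℝ => Complex.normSq (z + (t : ℂ) * w)) =
      fun t : ℝ => Complex.normSq z + t * (2 * (conj z * w).re) + t ^ 2 * Complex.normSq w := by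
    ext t
    simp only [Complex.normSq_apply, Complex.add_re, Complex.add_im, Complex.mul_re,
      Complex.mul_im, Complex.ofReal_re, Complex.ofReal_im, Complex.conj_re, Complex.conj_im]
    ring
  rw [e]
  have h1 : HasDerivAt (fun t : ℝ => t * (2 * (conj z * w).re)) (2 * (conj z * w).re) 0 := by
    simpa using (hasDerivAt_id (0 : ℝ)).mul_const (2 * (conj z * w).re)
  have h2 : HasDerivAt (fun t : ℝ => t ^ 2 * Complex.normSq w) 0 0 := by
    simpa using ((hasDerivAt_id (0 : ℝ)).pow 2).mul_const (Complex.normSq w)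
  exact ((h1.const_add (Complex.normSq z)).add h2).congr_deriv (add_zero _)

/-- the line -/
def li (x v : V) (t : ℝ) : V := (x.1 + t * v.1, x.2.1 + t * v.2.1, x.2.2 + t * v.2.2)

theorem li_zero (x v : V) : li x v 0 = x := by simp [li]

theorem li_eq (x v : V) : li x v = fun t : ℝ => x + t • v := by
  ext1 t; simp [li, Prod.ext_iff]

theorem hasDerivAt_li (x v : V) : HasDerivAt (li x v) v 0 := by
  rw [li_eq]
  simpa using ((hasDerivAt_id (0 : ℝ)).smul_const v).const_add x

theorem dH_of_line {f : V → ℝ} (hf : ContDiff ℝ ∞ f) {x v : V} {D : ℝ}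
    (h : HasDerivAt (fun t => f (li x v t)) D 0) : dH f x v = D := by
  have h1 : HasFDerivAt f (fderiv ℝ f x) (li x v 0) := by
    rw [li_zero]; exact ((hf.differentiable (by simp)) x).hasFDerivAt
  exact (h1.comp_hasDerivAt (0 : ℝ) (hasDerivAt_li x v)).unique h

theorem dH_f1 (x v : V) : dH f1 x v = 2 * (N1 x - 2) * (2 * (conj x.1 * v.1).re) +
    deriv beta (N3 x) * (2 * (conj x.2.2 * v.2.2).re) := by
  refine dH_of_line f1_smooth ?_
  have h1 : HasDerivAt (fun t => N1 (li x v t)) (2 * (conj x.1 * v.1).re) 0 := normSq_line _ _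
  have h3 : HasDerivAt (fun t => N3 (li x v t)) (2 * (conj x.2.2 * v.2.2).re) 0 :=
    normSq_line _ _
  have hb : HasDerivAt beta (deriv beta (N3 x)) (N3 (li x v 0)) := by
    rw [li_zero]; exact ((beta_smooth.differentiable (by simp)) _).hasDerivAt
  have h4 := (((h1.sub_const 2).pow 2).add (hb.comp (0 : ℝ) h3)).sub_const 1
  refine h4.congr_deriv ?_
  simp only [li_zero]
  norm_num

theorem dH_f2 (x v : V) : dH f2 x v = 2 * (conj x.2.1 * v.2.1).re -
    (2 * (conj x.1 * v.1).re * x.2.2.re + (N1 x - 1) * v.2.2.re) := by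
  refine dH_of_line f2_smooth ?_
  have h1 : HasDerivAt (fun t => N1 (li x v t)) (2 * (conj x.1 * v.1).re) 0 := normSq_line _ _
  have h2 : HasDerivAt (fun t => N2 (li x v t)) (2 * (conj x.2.1 * v.2.1).re) 0 :=
    normSq_line _ _
  have h3 : HasDerivAt (fun t => X3 (li x v t)) (X3 v) 0 :=
    X3.hasFDerivAt.comp_hasDerivAt (0 : ℝ) (hasDerivAt_li x v)
  have h4 := (h2.sub_const 4).sub ((h1.sub_const 1).mul h3)
  refine h4.congr_deriv ?_
  simp only [li_zero]
  rfl

theorem N1_bound {x : V} (hx : x ∈ K) : 1 ≤ N1 x ∧ N1 x ≤ 3 := by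
  have h := hx.1
  unfold f1 at h
  have h2 := beta_nonneg (N3 x)
  constructor <;> nlinarith

theorem N3_bound {x : V} (hx : x ∈ K) : N3 x ≤ 2 := by
  have h := hx.1
  unfold f1 at h
  exact beta_le (by nlinarith [sq_nonneg (N1 x - 2)])

theorem re_bound {x : V} (hx : x ∈ K) : |x.2.2.re| ≤ 3 / 2 := by
  have h := N3_bound hx
  rw [N3, Complex.normSq_apply] at h
  refine abs_le.2 ⟨?_, ?_⟩ <;> nlinarith [mul_self_nonneg x.2.2.im]

theorem N2_bound {x : V} (hx : x ∈ K) : 1 ≤ N2 x ∧ N2 x ≤ 7 := by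
  have h := hx.2
  unfold f2 at h
  have h1 := N1_bound hx
  have h2 := abs_le.1 (re_bound hx)
  have e : X3 x = x.2.2.re := rfl
  rw [e] at h
  constructor <;> nlinarith

theorem K_compact : IsCompact K := by
  refine Metric.isCompact_of_isClosed_isBounded ?_ ?_
  · have : K = f1 ⁻¹' {0} ∩ f2 ⁻¹' {0} := by ext x; rfl
    rw [this]
    exact (isClosed_singleton.preimage f1_smooth.continuous).inter
      (isClosed_singleton.preimage f2_smooth.continuous)
  · refine (Metric.isBounded_closedBall (x := (0 : V)) (r := 3)).subset fun x hx => ?_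
    rw [mem_closedBall_zero_iff]
    have h1 := (N1_bound hx).2
    have h2 := (N2_bound hx).2
    have h3 := N3_bound hx
    rw [N1, Complex.normSq_eq_norm_sq] at h1
    rw [N2, Complex.normSq_eq_norm_sq] at h2
    rw [N3, Complex.normSq_eq_norm_sq] at h3
    rw [Prod.norm_def, Prod.norm_def]
    have b1 : ‖x.1‖ ≤ 3 := by nlinarith [norm_nonneg x.1]
    have b2 : ‖x.2.1‖ ≤ 3 := by nlinarith [norm_nonneg x.2.1]
    have b3 : ‖x.2.2‖ ≤ 3 := by nlinarith [norm_nonneg x.2.2]
    exact max_le b1 (max_le b2 b3)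

theorem conj_smul_re (z : ℂ) (c : ℝ) : (conj z * (c * z)).re = c * Complex.normSq z := by
  simp only [Complex.normSq_apply, Complex.mul_re, Complex.mul_im, Complex.ofReal_re,
    Complex.ofReal_im, Complex.conj_re, Complex.conj_im]
  ring

theorem K_regular {x : V} (hx : x ∈ K) (a b : ℝ) : ∃ v, dH f1 x v = a ∧ dH f2 x v = b := by
  have hN1 := (N1_bound hx).1
  have hN2 := (N2_bound hx).1
  have key : ∀ c1 c2 c3 : ℝ,
      dH f1 x (c1 * x.1, c2 * x.2.1, c3 * x.2.2) = 4 * (N1 x - 2) * N1 x * c1 +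
        2 * deriv beta (N3 x) * N3 x * c3 ∧
      dH f2 x (c1 * x.1, c2 * x.2.1, c3 * x.2.2) = 2 * N2 x * c2 -
        (2 * N1 x * x.2.2.re * c1 + (N1 x - 1) * x.2.2.re * c3) := by
    intro c1 c2 c3
    rw [dH_f1, dH_f2]
    simp only [conj_smul_re]
    have e : ((c3 : ℂ) * x.2.2).re = c3 * x.2.2.re := by simp
    rw [e]
    unfold N1 N2 N3
    constructor <;> ring
  have sol2 : ∀ c1 c3 : ℝ, ∃ c2 : ℝ, 2 * N2 x * c2 -
        (2 * N1 x * x.2.2.re * c1 + (N1 x - 1) * x.2.2.re * c3) = b := fun c1 c3 =>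
    ⟨(b + (2 * N1 x * x.2.2.re * c1 + (N1 x - 1) * x.2.2.re * c3)) / (2 * N2 x), by
      have : N2 x ≠ 0 := by linarith
      field_simp
      ring⟩
  have sol1 : ∃ c1 c3 : ℝ, 4 * (N1 x - 2) * N1 x * c1 +
        2 * deriv beta (N3 x) * N3 x * c3 = a := by
    by_cases h2 : N1 x = 2
    · have h := hx.1
      unfold f1 at h
      rw [h2] at h
      have hb : beta (N3 x) = 1 := by linarith
      have h1 : 1 < N3 x := by
        by_contra hle
        rw [beta_zero (not_lt.1 hle)] at hb
        norm_num at hb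
      have hpos := beta_deriv_pos h1
      refine ⟨0, a / (2 * deriv beta (N3 x) * N3 x), ?_⟩
      have : N3 x ≠ 0 := by linarith
      field_simp
      ring
    · refine ⟨a / (4 * (N1 x - 2) * N1 x), 0, ?_⟩
      have h3 : N1 x - 2 ≠ 0 := sub_ne_zero.2 h2
      have h4 : N1 x ≠ 0 := by linarith
      field_simp
      ring
  obtain ⟨c1, c3, h1⟩ := sol1
  obtain ⟨c2, h2⟩ := sol2 c1 c3
  obtain ⟨k1, k2⟩ := key c1 c2 c3
  exact ⟨_, k1.trans h1, k2.trans h2⟩

theorem K_submanifold : IsClosedSubmanifold f1 f2 K where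
  compact := K_compact
  smooth := ⟨f1_smooth, f2_smooth⟩
  eq := rfl
  regular := fun _ hx a b => K_regular hx a b

theorem K_section : HasNormalSection f1 f2 K := by
  refine ⟨fun x => (0, x.2.1, 0), contDiff_const.prodMk
    ((contDiff_fst.comp contDiff_snd).prodMk contDiff_const), fun x hx h => ?_⟩
  have h2 := h.2
  rw [dH_f2] at h2
  have e : (conj x.2.1 * x.2.1).re = N2 x := by
    rw [← Complex.normSq_eq_conj_mul_self]; rfl
  simp only [mul_zero, Complex.zero_re, zero_mul, add_zero, sub_zero] at h2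
  rw [e] at h2
  linarith [(N2_bound hx).1]

theorem K_not_coisotropic : ¬ IsCoisotropic f1 f2 K := by
  intro h
  set x : V := ((Real.sqrt 2 : ℝ), 2, (Real.sqrt 2 : ℝ) * Complex.I) with hx
  have s2 : Real.sqrt 2 * Real.sqrt 2 = 2 := Real.mul_self_sqrt (by norm_num)
  have e1 : N1 x = 2 := by simp [N1, hx, Complex.normSq_apply]
  have e2 : N2 x = 4 := by simp [N2, hx]; norm_num
  have e3 : N3 x = 2 := by simp [N3, hx, Complex.normSq_apply]
  have e4 : x.2.2.re = 0 := by simp [hx]
  have hxK : x ∈ K := by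
    constructor
    · unfold f1; rw [e1, e3, beta_two]; norm_num
    · unfold f2; rw [e1, e2]; change _ - _ - _ * x.2.2.re = 0; rw [e4]; norm_num
  have hv := h x hxK (0, 0, 1) fun w hw => by
    have h1 := hw.1
    rw [dH_f1, e1, e3] at h1
    have hpos := beta_deriv_pos (show (1 : ℝ) < 2 by norm_num)
    have h2 : (conj x.2.2 * w.2.2).re = Real.sqrt 2 * w.2.2.im := by
      simp [hx]
    rw [h2] at h1
    have h3 : deriv beta 2 * (2 * (Real.sqrt 2 * w.2.2.im)) = 0 := by linarith
    have h4 : Real.sqrt 2 ≠ 0 := by positivity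
    have h5 : w.2.2.im = 0 := by
      have := hpos.ne'
      simpa [this, h4] using h3
    simp [omega, h5]
  have h2 := hv.2
  rw [dH_f2, e1, e4] at h2
  norm_num at h2

theorem torus_mem {q : ℝ × ℝ × ℝ} (hq : |q.2.2| ≤ 1 / 2) : io q ∈ K := by
  have e1 : N1 (io q) = 1 := by
    rw [N1, Complex.normSq_eq_norm_sq]; simp only [io]; rw [norm_u]; norm_num
  have e2 : N2 (io q) = 4 := by
    rw [N2, Complex.normSq_eq_norm_sq]; simp only [io]; rw [norm_mul, norm_u]; norm_num
  have e3 : N3 (io q) ≤ 1 := by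
    rw [N3]; simp only [io]; rw [Complex.normSq_ofReal]
    nlinarith [abs_le.1 hq, abs_nonneg q.2.2, sq_abs q.2.2, abs_mul_abs_self q.2.2]
  constructor
  · unfold f1; rw [e1, beta_zero e3]; norm_num
  · unfold f2; rw [e1, e2]; norm_num

theorem target_mem {x : V} (h1 : Complex.normSq x.1 = 1) (h2 : Complex.normSq x.2.1 = 4)
    (h3 : x.2.2.re = 0) (h4 : |x.2.2.im| ≤ 1 / 100) : x ∈ K := by
  have e1 : N1 x = 1 := h1
  have e2 : N2 x = 4 := h2
  have e3 : N3 x ≤ 1 := by
    rw [N3, Complex.normSq_apply, h3]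
    nlinarith [abs_nonneg x.2.2.im, abs_mul_abs_self x.2.2.im]
  constructor
  · unfold f1; rw [e1, beta_zero e3]; norm_num
  · unfold f2; rw [e1, e2]; norm_num

/-! ### Connectedness -/

/-- `|z₁|²` on the two halves of `K` -/
def mod1 (e : ℝ) (z : ℂ) : ℝ := 2 + e * Real.sqrt (1 - beta (Complex.normSq z))

/-- `|z₂|²` on the two halves of `K` -/
def mod2 (e : ℝ) (z : ℂ) : ℝ := 4 + (mod1 e z - 1) * z.re

/-- parametrisation of the two halves of `K` -/
def par (e : ℝ) (p : ℝ × ℝ × ℂ) : V :=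
  ((Real.sqrt (mod1 e p.2.2) : ℂ) * Complex.exp (p.1 * Complex.I),
    (Real.sqrt (mod2 e p.2.2) : ℂ) * Complex.exp (p.2.1 * Complex.I), p.2.2)

theorem par_continuous (e : ℝ) : Continuous (par e) := by
  have hb : Continuous beta := beta_smooth.continuous
  have h1 : Continuous (mod1 e) := by
    unfold mod1
    exact continuous_const.add (continuous_const.mul (Real.continuous_sqrt.comp
      (continuous_const.sub (hb.comp Complex.continuous_normSq))))
  have h2 : Continuous (mod2 e) := by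
    unfold mod2
    exact continuous_const.add ((h1.sub continuous_const).mul Complex.continuous_re)
  unfold par
  refine Continuous.prodMk ?_ (Continuous.prodMk ?_ (by fun_prop))
  · exact (Complex.continuous_ofReal.comp (Real.continuous_sqrt.comp (h1.comp
      (continuous_snd.comp continuous_snd)))).mul (Complex.continuous_exp.comp
      ((Complex.continuous_ofReal.comp continuous_fst).mul continuous_const))
  · exact (Complex.continuous_ofReal.comp (Real.continuous_sqrt.comp (h2.comp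
      (continuous_snd.comp continuous_snd)))).mul (Complex.continuous_exp.comp
      ((Complex.continuous_ofReal.comp (continuous_fst.comp continuous_snd)).mul
        continuous_const))

/-- the domain of the parametrisation -/
def Dom : Set (ℝ × ℝ × ℂ) := univ ×ˢ (univ ×ˢ Metric.closedBall 0 (Real.sqrt 2))

theorem Dom_preconnected : IsPreconnected Dom :=
  (convex_univ.prod (convex_univ.prod (convex_closedBall _ _))).isPreconnected

theorem mem_Dom {p : ℝ × ℝ × ℂ} : p ∈ Dom ↔ Complex.normSq p.2.2 ≤ 2 := by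
  have h : p ∈ Dom ↔ ‖p.2.2‖ ≤ Real.sqrt 2 := by
    unfold Dom
    simp [mem_prod]
  rw [h, Complex.normSq_eq_norm_sq, Real.le_sqrt (by norm_num)]
  norm_num

theorem beta_mono_le {r : ℝ} (h : r ≤ 2) : beta r ≤ 1 := by
  by_cases h1 : r ≤ 1
  · rw [beta_zero h1]; norm_num
  · push Not at h1
    rw [beta_eq h1]
    refine Real.exp_le_one_iff.2 ?_
    have : 1 ≤ (r - 1)⁻¹ := by
      rw [one_le_inv₀ (by linarith)]; linarith
    linarith

theorem par_mem {e : ℝ} (he : e = 1 ∨ e = -1) {p : ℝ × ℝ × ℂ} (hp : p ∈ Dom) : par e p ∈ K := by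
  rw [mem_Dom] at hp
  have hb := beta_mono_le hp
  have hb0 := beta_nonneg (Complex.normSq p.2.2)
  set s := Real.sqrt (1 - beta (Complex.normSq p.2.2)) with hs
  have hs2 : s ^ 2 = 1 - beta (Complex.normSq p.2.2) := Real.sq_sqrt (by linarith)
  have hs0 : 0 ≤ s := Real.sqrt_nonneg _
  have hs1 : s ≤ 1 := by nlinarith
  have hm : mod1 e p.2.2 = 2 + e * s := rfl
  have hre : |p.2.2.re| ≤ 3 / 2 := by
    rw [Complex.normSq_apply] at hp
    refine abs_le.2 ⟨?_, ?_⟩ <;> nlinarith [mul_self_nonneg p.2.2.im]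
  have hm1 : 1 ≤ mod1 e p.2.2 ∧ mod1 e p.2.2 ≤ 3 := by
    rw [hm]; rcases he with rfl | rfl <;> constructor <;> linarith
  have hm2 : 0 ≤ mod2 e p.2.2 := by
    unfold mod2
    have := abs_le.1 hre
    nlinarith
  have e1 : N1 (par e p) = mod1 e p.2.2 := by
    rw [N1, Complex.normSq_eq_norm_sq]
    simp only [par]
    rw [norm_mul, norm_u, mul_one, Complex.norm_real, Real.norm_eq_abs, sq_abs,
      Real.sq_sqrt (by linarith)]
  have e2 : N2 (par e p) = mod2 e p.2.2 := by
    rw [N2, Complex.normSq_eq_norm_sq]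
    simp only [par]
    rw [norm_mul, norm_u, mul_one, Complex.norm_real, Real.norm_eq_abs, sq_abs,
      Real.sq_sqrt hm2]
  have e3 : N3 (par e p) = Complex.normSq p.2.2 := rfl
  have e4 : X3 (par e p) = p.2.2.re := rfl
  constructor
  · unfold f1
    rw [e1, e3, hm]
    have : (2 + e * s - 2) ^ 2 = s ^ 2 := by
      rcases he with rfl | rfl <;> ring
    rw [this, hs2]; ring
  · unfold f2
    rw [e1, e2, e4]
    unfold mod2
    ring

theorem mem_par {x : V} (hx : x ∈ K) : x ∈ par 1 '' Dom ∪ par (-1) '' Dom := by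
  have h1 := hx.1
  have h2 := hx.2
  unfold f1 at h1
  unfold f2 at h2
  have hb : (N1 x - 2) ^ 2 = 1 - beta (N3 x) := by linarith
  have hs : Real.sqrt (1 - beta (N3 x)) = |N1 x - 2| := by rw [← hb, Real.sqrt_sq_eq_abs]
  have hD : ((x.1.arg, x.2.1.arg, x.2.2) : ℝ × ℝ × ℂ) ∈ Dom := mem_Dom.2 (N3_bound hx)
  have main : ∀ e : ℝ, mod1 e x.2.2 = N1 x → par e (x.1.arg, x.2.1.arg, x.2.2) = x := by
    intro e he
    have he2 : mod2 e x.2.2 = N2 x := by
      unfold mod2; rw [he]
      have : X3 x = x.2.2.re := rfl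
      rw [this] at h2
      linarith
    unfold par
    simp only
    rw [he, he2]
    have r1 : Real.sqrt (N1 x) = ‖x.1‖ := by
      rw [N1, Complex.normSq_eq_norm_sq, Real.sqrt_sq (norm_nonneg _)]
    have r2 : Real.sqrt (N2 x) = ‖x.2.1‖ := by
      rw [N2, Complex.normSq_eq_norm_sq, Real.sqrt_sq (norm_nonneg _)]
    rw [r1, r2, Complex.norm_mul_exp_arg_mul_I, Complex.norm_mul_exp_arg_mul_I]
  have hm (e : ℝ) : mod1 e x.2.2 = 2 + e * |N1 x - 2| := by
    rw [← hs]; rfl
  rcases le_total 2 (N1 x) with h | h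
  · refine Or.inl ⟨_, hD, main 1 ?_⟩
    rw [hm, abs_of_nonneg (by linarith)]; ring
  · refine Or.inr ⟨_, hD, main (-1) ?_⟩
    rw [hm, abs_of_nonpos (by linarith)]; ring

theorem K_connected : IsConnected K := by
  have hK : K = par 1 '' Dom ∪ par (-1) '' Dom := by
    refine Subset.antisymm (fun x hx => mem_par hx) ?_
    rintro x (⟨p, hp, rfl⟩ | ⟨p, hp, rfl⟩)
    · exact par_mem (Or.inl rfl) hp
    · exact par_mem (Or.inr rfl) hp
  have hp0 : ((0, 0, (Real.sqrt 2 : ℝ)) : ℝ × ℝ × ℂ) ∈ Dom := by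
    rw [mem_Dom]; simp
  have heq : par 1 (0, 0, (Real.sqrt 2 : ℝ)) = par (-1) (0, 0, (Real.sqrt 2 : ℝ)) := by
    have h : Real.sqrt (1 - beta (Complex.normSq ((Real.sqrt 2 : ℝ) : ℂ))) = 0 := by
      rw [Complex.normSq_ofReal, Real.mul_self_sqrt (by norm_num), beta_two]; simp
    have h1 (e : ℝ) : mod1 e ((Real.sqrt 2 : ℝ) : ℂ) = 2 := by
      unfold mod1; rw [h]; ring
    unfold par mod2
    simp only [h1]
  rw [hK]
  refine ⟨⟨_, Or.inl (mem_image_of_mem _ hp0)⟩, ?_⟩
  refine IsPreconnected.union (par 1 (0, 0, (Real.sqrt 2 : ℝ))) (mem_image_of_mem _ hp0) ?_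
    (Dom_preconnected.image _ (par_continuous 1).continuousOn)
    (Dom_preconnected.image _ (par_continuous (-1)).continuousOn)
  rw [heq]
  exact mem_image_of_mem _ hp0

theorem packing_countable {P : Set (Set V)} (hP : IsPacking K P) : P.Countable := by
  obtain ⟨h1, h2⟩ := hP
  choose! φ hφ using h1
  have hc : Countable P := by
    refine countable_of_disjoint (K := K) K_compact (fun q hq => torus_mem hq)
      (fun x a b c d => target_mem a b c d) (fun A : P => φ A.1)
      (fun A => (isHam_symp (hφ A.1 A.2).1).1) (fun A => (isHam_symp (hφ A.1 A.2).1).2.1)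
      (fun A => (isHam_symp (hφ A.1 A.2).1).2.2) ?_
    intro A A' hne
    have h3 := h2 A.2 A'.2 (fun h => hne (Subtype.ext h))
    change Disjoint A.1 A'.1 at h3
    rw [(hφ A.1 A.2).2, (hφ A'.1 A'.2).2] at h3
    exact h3
  exact hc

/-- **Theorem.** There is a connected closed four-dimensional submanifold `K` of `ℝ⁶` whose normal
bundle has a nowhere vanishing section, which is not coisotropic, and all of whose packings are
countable. -/
theorem result : ∃ (f g : V → ℝ) (K : Set V), IsClosedSubmanifold f g K ∧ IsConnected K ∧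
    HasNormalSection f g K ∧ ¬ IsCoisotropic f g K ∧
    ∀ P : Set (Set V), IsPacking K P → P.Countable :=
  ⟨f1, f2, K, K_submanifold, K_connected, K_section, K_not_coisotropic,
    fun _ hP => packing_countable hP⟩

end Pool.Agent.Results.MP_e888d6_gt.Disproof
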